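import Pool.Agent.Lib.MP_651af7_nt.Am4.GpB

/-! The adapted basis for elements that are divisible by a power outside codimension two. -/

namespace Pool.Agent.Lib.MP_651af7_nt.Am

open Module Finset LaurentPolynomial Algebra

variable {A Q : Type} [CommRing A] {φ : Q → A} {a : Q → ℕ} {J : Finset Q} {j : Q}

/-- `s` is divisible by `u` outside a closed set of codimension two. -/
def Dv (φ u s : A) : Prop :=
  ∃ (c g : A) (k : ℕ), c ^ k * s = u * g ∧ 2 ≤ (Ideal.span {φ, c}).height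

variable {F : Type} [Field F] [IsDomain A] [Algebra F A] [FiniteType F A] [DecidableEq Q]
  (hP : ∀ T : Finset Q, (T.card : ℕ∞) ≤ (Ideal.span (φ '' T)).height)
include hP

include F in
theorem cJ_inf (hJ : ∀ i ∈ J, 0 < a i) (hj : j ∉ J) (t n : ℕ) {s : A} (h1 : s ∈ cI φ a J n)
    (h2 : Dv (φ j) (φ j ^ t) s) : s ∈ cI φ a (insert j J) (n + a j * t) := by
  obtain ⟨c, g, k, e, h2⟩ := h2
  have : FiniteType A (rees φ a J) := (Subalgebra.fg_iff_finiteType _).1
    (Subalgebra.fg_def.2 ⟨_, (J.finite_toSet.image _).insert _, rfl⟩)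
  have : FiniteType F (rees φ a J) := .trans (S := A) inferInstance inferInstance
  let Λ := FractionRing A[T;T⁻¹]
  let ι := algebraMap A[T;T⁻¹] Λ
  have hi : Function.Injective ι := IsFractionRing.injective _ _
  have i1 : ∀ z, algebraMap A Λ z = ι (C z) := fun z => IsScalarTower.algebraMap_apply _ _ _ z
  have : FaithfulSMul A Λ := (faithfulSMul_iff_algebraMap_injective ..).2 fun x y h =>
    FaithfulSMul.algebraMap_injective A A[T;T⁻¹] (hi (by rwa [i1, i1] at h))
  have i2 : ∀ (J : Finset Q) z, algebraMap (rees φ a J) Λ z = ι z := fun J z =>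
    IsScalarTower.algebraMap_apply _ _ _ z
  have : FaithfulSMul (rees φ a J) Λ := (faithfulSMul_iff_algebraMap_injective ..).2 fun x y h =>
    Subtype.ext (hi (by rwa [i2, i2] at h))
  have φ0 : algebraMap A Λ (φ j ^ t) ≠ 0 := (map_ne_zero_iff _
    (FaithfulSMul.algebraMap_injective A Λ)).2 (pow_ne_zero _ fun e => by simpa [e] using hP {j})
  obtain ⟨y, hy⟩ : ∃ y : Λ, algebraMap A Λ (φ j ^ t) * y = algebraMap A Λ s :=
    ⟨_, mul_div_cancel₀ _ φ0⟩
  have y1 : IsIntegral A y := by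
    refine gp_int (F := F) (u := φ j ^ t) (c := c ^ k) (fun P _ k1 k2 => ?_) ?_ ?_
    · refine gp_ht (F := F) 2 P (h2.trans (Ideal.height_mono (Ideal.span_le.2 ?_)))
      rintro _ (rfl | rfl)
      exacts [Ideal.IsPrime.mem_of_pow_mem ‹_› _ k1, Ideal.IsPrime.mem_of_pow_mem ‹_› _ k2]
    · rw [Algebra.smul_def, hy]
      exact isIntegral_algebraMap
    · have k : c ^ k • y = algebraMap A Λ g := mul_left_cancel₀ φ0 (by
        rw [Algebra.smul_def, mul_left_comm, hy, ← map_mul, e, map_mul])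
      exact k ▸ isIntegral_algebraMap
  have y2 : IsIntegral (rees φ a J) (y * ι (T (-(n : ℤ)))) := by
    refine gp_int (F := F) (u := ⟨T 1, rees_T⟩ ^ n) (c := algebraMap A _ (φ j) ^ t)
      (fun P _ k1 k2 => rees_cod hP hJ hj P (Ideal.IsPrime.mem_of_pow_mem ‹_› _ k1)
        (Ideal.IsPrime.mem_of_pow_mem ‹_› _ k2)) ?_ ?_
    · rw [Algebra.smul_def, i2, mul_left_comm, ← map_mul]
      change IsIntegral _ (y * ι (T 1 ^ n * _))
      rw [T_pow, ← T_add, mul_one, add_neg_cancel, T_zero, map_one, mul_one]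
      exact y1.tower_top
    · rw [← map_pow, algebraMap_smul, Algebra.smul_def, ← mul_assoc, hy, i1, ← map_mul]
      exact IsIntegral.algebraMap h1
  have h3 : rees φ a J ≤ rees φ a (insert j J) :=
    adjoin_mono (Set.insert_subset_insert (Set.image_mono (subset_insert j J)))
  have y3 := (isIntegral_algebraMap (A := Λ) (x := (⟨_, pow_mem (rees_gen (φ := φ) (a := a)
    (mem_insert_self j J)) t⟩ : rees φ a (insert j J)))).mul (y2.map_of_comp_eq
      (Subalgebra.inclusion h3).toRingHom (RingHom.id _) (RingHom.ext fun x => (i2 _ _).trans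
        (i2 _ x).symm))
  rw [i2, RingHom.id_apply, Subtype.coe_mk, mul_pow, T_pow, map_mul, mul_mul_mul_comm, ← map_pow, ← i1, hy, i1,
    ← map_mul, ← map_mul, ← T_add,
    show t * -(a j : ℤ) + -(n : ℤ) = -((n + a j * t : ℕ) : ℤ) by push_cast; ring] at y3
  exact (isIntegral_algebraMap_iff hi).1 y3

theorem cJ_dim {E : Type} [AddCommGroup E] [Module F E] [FiniteDimensional F E] (ψ : E →ₗ[F] A)
    (W : Q → ℕ → Submodule F E) (hW : ∀ i t, ∀ s ∈ W i t, Dv (φ i) (φ i ^ (t + 1)) (ψ s)) (N : ℕ)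
    (J : Finset Q) (hJ : ∀ j ∈ J, 0 < a j) : ∃ M, ∑ i ∈ J, a i * ∑ t ∈ range N, finrank F (W i t) ≤
      ∑ n ∈ range M, finrank F (((cI φ a J (n + 1)).restrictScalars F).comap ψ) := by
  induction J using Finset.induction_on with
  | empty => exact ⟨0, by simp⟩
  | insert j J hj ih =>
    have hJ' : ∀ l ∈ J, 0 < a l := fun l hl => hJ l (mem_insert_of_mem hl)
    obtain ⟨M, hM⟩ := ih hJ'
    obtain ⟨Y, -, -, k1, -, k2⟩ := Fc.conv (fun n => ((cI φ a J n).restrictScalars F).comap ψ)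
      (fun t => W j (t / a j)) (fun n => ((cI φ a (insert j J) n).restrictScalars F).comap ψ)
      (fun _ _ h _ hs => cI_anti J h hs) (by simp [cI_zero]) (fun _ _ h _ hs => cI_anti _ h hs)
      (fun n _ hs => by simpa using cI_pow (j := j) 0 n hs) (fun n t s hs => cI_anti _ (by
        have := Nat.lt_mul_div_succ t (hJ j (mem_insert_self _ _))
        omega) (cJ_inf (F := F) hP hJ' hj _ n hs.1 (hW _ _ _ hs.2))) M (a j * N)
    rw [Fc.sum_div fun t => finrank F (W j t)] at k2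
    refine ⟨_, le_trans ?_ (k2.trans (sum_le_sum fun n _ => Submodule.finrank_mono (k1 _)))⟩
    rw [sum_insert hj]
    omega

theorem cJ_basis [Fintype Q] {r : ℕ} (ψ : (Fin r → F) →ₗ[F] A) (W : Q → ℕ → Submodule F (Fin r → F))
    (hW : ∀ i t, ∀ s ∈ W i t, Dv (φ i) (φ i ^ (t + 1)) (ψ s)) (N : ℕ) (a : Q → ℕ) :
    ∃ (G : Matrix (Fin r) (Fin r) F) (w : Fin r → ℕ), G.det ≠ 0 ∧
      (∀ l, ψ (G l) ∈ cI φ a {i | 0 < a i} (w l)) ∧
      ∑ i, a i * ∑ t ∈ range N, finrank F (W i t) ≤ ∑ l, w l := by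
  obtain ⟨M, hM⟩ := cJ_dim hP ψ W hW N {i | 0 < a i} fun j hj => (mem_filter.1 hj).2
  obtain ⟨b, w, h1, h2, h3, h4⟩ := Fc.fa_aux M
    (fun n => ((cI φ a {i | 0 < a i} n).restrictScalars F).comap ψ) fun _ _ h _ hs => cI_anti _ h hs
  have hc : b.card = r := by
    rw [← finrank_span_finset_eq_card h1, h2, cI_zero, Submodule.restrictScalars_top,
      Submodule.comap_top, finrank_top, finrank_fin_fun]
  let e := (Finset.equivFinOfCardEq hc).symm
  refine ⟨Matrix.of fun a => (e a).1, fun a => w (e a), ?_, fun a => h3 _ (e a).2, ?_⟩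
  · exact ((Matrix.isUnit_iff_isUnit_det _).1 (Matrix.linearIndependent_rows_iff_isUnit.1
      (h1.comp e e.injective))).ne_zero
  · rw [e.sum_comp fun x => w x, Finset.sum_coe_sort b w]
    refine le_trans (le_of_eq ?_) (hM.trans h4)
    exact (sum_filter_of_ne fun i _ h => Nat.pos_of_ne_zero fun e => h (by rw [e, zero_mul])).symm

end Pool.Agent.Lib.MP_651af7_nt.Am
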