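import Pool.Agent.Lib.MP_651af7_nt.Am2.Neq
import Pool.Agent.Lib.MP_651af7_nt.Am5.Gp

/-! Forms that vanish to a high order along a divisor. -/

namespace Pool.Agent.Lib.MP_651af7_nt.Am

open Module

variable {F K : Type} [Field F] [Field K] [Algebra F K] {R N : ℕ} {ξ : Fin R × Fin N → K}

theorem mo_ht {A : Type} [CommRing A] [IsDomain A] {φ c : A} (h0 : φ ≠ 0)
    (h : ∀ p ∈ (Ideal.span {φ}).minimalPrimes, c ∉ p) : 2 ≤ (Ideal.span {φ, c}).height := by
  rw [Ideal.height_eq_inf_minimalPrimes]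
  refine le_iInf₂ fun p hp => ?_
  have := hp.1.1
  obtain ⟨p', h2, h3⟩ := Ideal.exists_minimalPrimes_le (I := Ideal.span {φ}) (J := p)
    ((Ideal.span_mono (by simp)).trans hp.1.2)
  have := h2.1.1
  have h4 : p' < p := lt_of_le_of_ne h3 fun e =>
    h p' h2 (e ▸ hp.1.2 (Ideal.subset_span (by simp)))
  have h5 : (⊥ : Ideal A) < p' := bot_lt_iff_ne_bot.2 fun e =>
    h0 (Ideal.mem_bot.1 (e ▸ h2.1.2 (Ideal.subset_span rfl)))
  refine le_trans ?_ (Ideal.height_add_one_le_of_lt_of_isPrime h4)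
  rw [← one_add_one_eq_two]
  exact add_le_add_left (le_add_self.trans (Ideal.height_add_one_le_of_lt_of_isPrime h5)) 1

theorem mo_gen [Infinite F] {d : Fin R → ℕ} {u : K}
    (hu : u ∈ bm F ξ d) (u0 : u ≠ 0) : ∃ u' ∈ bm F ξ d, u' ≠ 0 ∧ ∀ ε, (∀ b, ξ (b, ε b) ≠ 0) →
      ∀ φ c : chart F ξ ε, φ = u / ∏ b, ξ (b, ε b) ^ d b → c = u' / ∏ b, ξ (b, ε b) ^ d b →
        2 ≤ (Ideal.span {φ, c}).height := by
  let ψ : ∀ ε, bm F ξ d →ₗ[F] chart F ξ ε := fun ε =>
    ((LinearMap.mulRight F (∏ b, ξ (b, ε b) ^ d b)⁻¹).comp (bm F ξ d).subtype).codRestrict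
      (chart F ξ ε).toSubmodule fun x => by simpa [div_eq_mul_inv] using nev_div x.2 ε
  have l2 : ∀ ε x, (ψ ε x : K) = x / ∏ b, ξ (b, ε b) ^ d b := fun ε x => (div_eq_mul_inv _ _).symm
  have : ∀ ε, Finite (Ideal.span {ψ ε ⟨u, hu⟩}).minimalPrimes := fun ε => by
    have : Algebra.FiniteType F (chart F ξ ε) := (Subalgebra.fg_iff_finiteType _).1
      (Subalgebra.fg_def.2 ⟨_, Set.finite_range _, rfl⟩)
    have := Algebra.FiniteType.isNoetherianRing F (chart F ξ ε)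
    exact Ideal.finite_minimalPrimes_of_isNoetherianRing _ _
  obtain ⟨x, hx⟩ := Submodule.exists_forall_notMem_of_forall_ne_top
    (ι := Option (Σ ε : {ε : Fin R → Fin N // ∀ b, ξ (b, ε b) ≠ 0},
      (Ideal.span {ψ ε ⟨u, hu⟩}).minimalPrimes))
    (fun o => o.elim ⊥ fun p => (p.2.1.restrictScalars F).comap (ψ p.1)) (by
      rintro (_ | ⟨ε, p, hp⟩) e
      · exact u0 (congrArg Subtype.val ((Submodule.mem_bot F).1
          (show (⟨u, hu⟩ : bm F ξ d) ∈ ⊥ from e.ge trivial)))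
      · obtain ⟨μ, hμ⟩ := nev_one (ξ := ξ) ε.1 d
        have k1 : ψ ε ⟨_, nev_mn μ⟩ ∈ p := e.ge trivial
        rw [show ψ ε ⟨_, nev_mn μ⟩ = 1 from Subtype.ext ((l2 _ _).trans ((div_eq_one_iff_eq
          (Finset.prod_ne_zero_iff.2 fun b _ => pow_ne_zero _ (ε.2 b))).2 hμ))] at k1
        exact hp.1.1.one_notMem k1)
  refine ⟨x, x.2, fun e => hx none ((Submodule.mem_bot F).2 (Subtype.ext e)),
    fun ε hε φ c h1 h2 => ?_⟩
  obtain rfl : φ = ψ ε ⟨u, hu⟩ := Subtype.ext (h1.trans (l2 ε ⟨u, hu⟩).symm)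
  obtain rfl : c = ψ ε x := Subtype.ext (h2.trans (l2 ε x).symm)
  exact mo_ht (fun e => div_ne_zero u0 (Finset.prod_ne_zero_iff.2 fun b _ => pow_ne_zero _ (hε b))
    (h1.symm.trans (congrArg Subtype.val e))) fun p hp => hx (some ⟨⟨ε, hε⟩, p, hp⟩)

variable (F ξ) in
/-- The forms that stay forms after multiplication by the first powers of `ω`. -/
def mw (ω : K) (Y : Fin R → ℕ) (i : ℕ) : Submodule F K :=
  ⨅ l ≤ i, (bm F ξ Y).comap (LinearMap.mulLeft F (ω ^ l))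

theorem mem_mw {ω z : K} {Y : Fin R → ℕ} {i : ℕ} :
    z ∈ mw F ξ ω Y i ↔ ∀ l ≤ i, ω ^ l * z ∈ bm F ξ Y := by
  simp [mw]

theorem mw_le (ω : K) (Y : Fin R → ℕ) (i : ℕ) : mw F ξ ω Y i ≤ bm F ξ Y := fun z hz => by
  simpa using mem_mw.1 hz 0 i.zero_le

theorem mo_map {f : K} (h : f ≠ 0) (W : Submodule F K) :
    finrank F (W.map (LinearMap.mulLeft F f)) = finrank F W :=
  (Submodule.equivMapOfInjective (LinearMap.mulLeft F f) (mul_right_injective₀ h) _).finrank_eq.symm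

theorem mo_dim {d Y : Fin R → ℕ} {u u' : K} (hu : u ∈ bm F ξ d) (u0 : u ≠ 0) (hu' : u' ∈ bm F ξ d)
    (u1 : u' ≠ 0) (hY : ∀ b, d b ≤ Y b) (i : ℕ) :
    (finrank F (bm F ξ Y) - i * (finrank F (bm F ξ Y) - finrank F (bm F ξ fun b => Y b - d b)) : ℝ) ≤
      finrank F (mw F ξ (u' / u) Y i) := by
  have := bm_fin (F := F) (ξ := ξ) Y
  have h1 : ∀ w ∈ bm F ξ d, ∀ z ∈ bm F ξ fun b => Y b - d b, w * z ∈ bm F ξ Y := fun w hw z hz => by
    simpa only [Nat.add_sub_cancel' (hY _)] using nev_mul hw hz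
  have := fun i => Submodule.finiteDimensional_of_le (mw_le (F := F) (ξ := ξ) (u' / u) Y i)
  have := bm_fin (F := F) (ξ := ξ) fun b => Y b - d b
  induction i with
  | zero =>
    simpa using Submodule.finrank_mono (s := bm F ξ Y) (t := mw F ξ (u' / u) Y 0) fun z hz =>
      mem_mw.2 fun l hl => by simpa [Nat.le_zero.1 hl] using hz
  | succ i ih =>
    have w0 := pow_ne_zero i (div_ne_zero u1 u0)
    have k1 := Submodule.finrank_sup_add_finrank_inf_eq
      ((mw F ξ (u' / u) Y i).map (LinearMap.mulLeft F ((u' / u) ^ i)))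
      ((bm F ξ fun b => Y b - d b).map (LinearMap.mulLeft F u))
    have k2 := Submodule.finrank_mono (t := bm F ξ Y) (sup_le (a := (mw F ξ (u' / u) Y i).map
      (LinearMap.mulLeft F ((u' / u) ^ i))) (b := (bm F ξ fun b => Y b - d b).map
        (LinearMap.mulLeft F u)) (by
        rintro _ ⟨z, hz, rfl⟩
        exact mem_mw.1 hz i le_rfl) (by
        rintro _ ⟨z, hz, rfl⟩
        exact h1 u hu z hz))
    have k3 := Submodule.finrank_mono (t := (mw F ξ (u' / u) Y (i + 1)).map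
      (LinearMap.mulLeft F ((u' / u) ^ i))) (s := (mw F ξ (u' / u) Y i).map
        (LinearMap.mulLeft F ((u' / u) ^ i)) ⊓ (bm F ξ fun b => Y b - d b).map
          (LinearMap.mulLeft F u)) (by
        rintro _ ⟨⟨z, hz, rfl⟩, y, hy, e⟩
        refine ⟨z, mem_mw.2 fun l hl => ?_, rfl⟩
        rcases hl.lt_or_eq with hl | rfl
        · exact mem_mw.1 hz l (by omega)
        · rw [pow_succ', mul_assoc, show (u' / u) ^ i * z = u * y from e.symm, ← mul_assoc,
            div_mul_cancel₀ _ u0]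
          exact h1 u' hu' y hy)
    rw [mo_map w0, mo_map u0] at k1
    rw [mo_map w0] at k3
    have k4 : (finrank F (mw F ξ (u' / u) Y i) + finrank F (bm F ξ fun b => Y b - d b) : ℝ) ≤
        finrank F (bm F ξ Y) + finrank F (mw F ξ (u' / u) Y (i + 1)) := by
      exact_mod_cast k1 ▸ add_le_add k2 k3
    push_cast
    linarith

end Pool.Agent.Lib.MP_651af7_nt.Am
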