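import Pool.Agent.Lib.MP_651af7_nt.Am3.Main3
import Pool.Agent.Lib.MP_651af7_nt.Am5.Num5
import Pool.Agent.Lib.MP_651af7_nt.Am5.Nev5

/-! Integral points on the complement of twice as many divisors as the fibre dimension. -/

namespace Pool.Agent.Lib.MP_651af7_nt.Am

open Height MvPolynomial NumberField IntermediateField Ds

theorem Main5_num {A G G' C₀ s H δ σ Y I n D C : ℝ} (hA : A = (2 * s + 2) * C₀) (g1 : 1 ≤ G)
    (g0 : 0 ≤ G') (c0 : 0 ≤ C₀) (s0 : 0 ≤ s) (hK : 2 * C₀ * G' ≤ G) (h0 : 0 ≤ H) (h1 : 0 ≤ σ)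
    (d0 : 0 ≤ δ) (k1 : H + σ ≤ C₀ * (1 + δ)) (k3 : Y ≤ s * σ) (k4 : Y + G * δ ≤ D + G' * σ)
    (k6 : 2 * A * I ≤ (2 * A + 1 + 1) * Y + H + C) (k7 : I + n = D) :
    H + σ ≤ 2 * A * n + (C + A * G + A) := by
  have e1 := mul_le_mul_of_nonneg_left (show σ ≤ C₀ * (1 + δ) by linarith) g0
  have e2 := mul_le_mul_of_nonneg_right hK (show 0 ≤ 1 + δ by positivity)
  have e4 := mul_le_mul_of_nonneg_right g1 d0
  have e5 : δ - G ≤ 2 * (n + I - Y) := by linarith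
  have e6 := mul_le_mul_of_nonneg_left e5 (show 0 ≤ A by rw [hA]; positivity)
  have e7 := mul_le_mul_of_nonneg_left (show σ ≤ C₀ * (1 + δ) by linarith) s0
  subst hA
  linarith

theorem Main5_hc {k K β : Type} [Field k] [NumberField k] [Field K] [Algebra k K] {g R N : ℕ}
    (y : Fin g → K) {ξ : Fin R × Fin N → K} {𝓕 : Filter β} {v : β → K → k} (h : Fc.Sp 𝓕 v)
    {m : Fin R → Fin N} (hm : ∀ b, ξ (b, m b) ≠ 0) (d : Fin R → ℕ)
    (hd : Algebra.IsAlgebraic (adjoin k {z | ∃ b a a', d b ≠ 0 ∧ z = ξ (b, a) / ξ (b, a')}) K) :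
    ∃ C : ℕ, ∀ᶠ p in 𝓕, logHeight (fun i => v p (y i)) + ∑ b, logHeight (fun a => v p (ξ (b, a))) ≤
      C * (1 + ∑ b, d b * logHeight fun a => v p (ξ (b, a))) := by
  obtain ⟨f, hf⟩ : ∃ f : Fin R × Fin N × Fin N → K, f = fun s =>
    if d s.1 = 0 then 1 else ξ (s.1, s.2.1) / ξ (s.1, s.2.2) := ⟨_, rfl⟩
  have h1 : adjoin k {z | ∃ b a a', d b ≠ 0 ∧ z = ξ (b, a) / ξ (b, a')} ≤ adjoin k (Set.range f) :=
    adjoin.mono k _ _ fun _ ⟨b, a, a', h0, e⟩ => ⟨(b, a, a'), by rw [hf, e]; exact if_neg h0⟩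
  have h2 : ∀ z : K, IsAlgebraic (Algebra.adjoin k (Set.range f)) z := fun z =>
    isAlgebraic_adjoin_iff.1 ((hd.isAlgebraic z).ringHom_of_comp_eq (inclusion h1).toRingHom
      (RingHom.id K) (RingHom.injective _) rfl)
  choose c c0 hc using fun s : Fin g ⊕ Fin R × Fin N =>
    Fc.ht_alg h (h2 (s.elim y fun s => ξ s / ξ (s.1, m s.1)))
  have h3 : ∀ s : Fin R × Fin N × Fin N, ∀ᶠ p in 𝓕, v p (ξ (s.1, s.2.1) / ξ (s.1, s.2.2)) =
      v p (ξ (s.1, s.2.1)) / v p (ξ (s.1, s.2.2)) := fun s => by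
    filter_upwards [h.mul (ξ (s.1, s.2.1)) (ξ (s.1, s.2.2))⁻¹, h.inv (ξ (s.1, s.2.2))] with p p1 p2
    rw [div_eq_mul_inv, p1, p2, div_eq_mul_inv]
  have c1 : 0 ≤ ∑ s, c s := Finset.sum_nonneg fun s _ => c0 s
  refine ⟨⌈(∑ s, c s) * (1 + N * N)⌉₊, ?_⟩
  filter_upwards [Filter.eventually_all.2 hc, Filter.eventually_all.2 h3, h.one,
    Filter.eventually_all.2 fun b => h.ne (hm b)] with p p1 p2 p3 p4
  have e1 : ∀ b, logHeight (fun a => v p (ξ (b, a))) ≤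
      ∑ a, logHeight₁ (v p (ξ (b, a) / ξ (b, m b))) := fun b => by
    rw [← logHeight_smul_eq_logHeight _ (inv_ne_zero (p4 b))]
    refine (Av.logHeight_le_sum _).trans (le_of_eq (Finset.sum_congr rfl fun a _ => ?_))
    rw [p2 (b, a, m b), div_eq_inv_mul]
    rfl
  have e3 : ∑ s : Fin R × Fin N × Fin N, logHeight₁ (v p (f s)) ≤
      N * N * ∑ b, d b * logHeight fun a => v p (ξ (b, a)) := by
    rw [Fintype.sum_prod_type, Finset.mul_sum]
    refine Finset.sum_le_sum fun b _ => (Finset.sum_le_card_nsmul _ _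
      (d b * logHeight fun a => v p (ξ (b, a))) fun s _ => ?_).trans_eq (by simp)
    simp only [hf]
    split_ifs with h0
    · rw [p3, logHeight₁_one]
      exact mul_nonneg (Nat.cast_nonneg _) (logHeight_nonneg _)
    · rw [p2 (b, s)]
      exact (Av.logHeight₁_div_le (fun a => v p (ξ (b, a))) _ _).trans
        (le_mul_of_one_le_left (logHeight_nonneg _) (Nat.one_le_cast.2 (Nat.pos_of_ne_zero h0)))
  have e5 := (add_le_add (Av.logHeight_le_sum fun i => v p (y i))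
    ((Finset.sum_le_sum fun b (_ : b ∈ Finset.univ) => e1 b).trans (Fintype.sum_prod_type
      fun s : Fin R × Fin N => logHeight₁ (v p (ξ s / ξ (s.1, m s.1)))).ge)).trans
    ((Fintype.sum_sum_type fun s : Fin g ⊕ Fin R × Fin N =>
      logHeight₁ (v p (s.elim y fun s => ξ s / ξ (s.1, m s.1)))).ge.trans
      (Finset.sum_le_sum fun s _ => p1 s))
  rw [← Finset.sum_mul] at e5
  have e7 : 0 ≤ ∑ b, d b * logHeight fun a => v p (ξ (b, a)) :=
    Finset.sum_nonneg fun b _ => mul_nonneg (Nat.cast_nonneg _) (logHeight_nonneg _)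
  refine e5.trans (le_trans ?_ (mul_le_mul_of_nonneg_right (Nat.le_ceil _) (by positivity)))
  rw [mul_assoc]
  refine mul_le_mul_of_nonneg_left ?_ c1
  have e9 : (0 : ℝ) ≤ N * N := by positivity
  linarith

theorem main5 (k : Type) [Field k] [NumberField k] (g R N q n : ℕ)
    (J : Ideal (MvPolynomial (Fin g) k)) (hJ : ∀ P ∈ J, ∀ d, homogeneousComponent d P ∈ J)
    (hA : Abelian (J.map (MvPolynomial.map (algebraMap k (AlgebraicClosure k)))))
    (K : Type) [Field K] [Algebra k K] (y : Fin g → K) (ξ : Fin R × Fin N → K)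
    (hy : ∀ (P : MvPolynomial (Fin g) k) (d : ℕ), P.IsHomogeneous d → (aeval y P = 0 ↔ P ∈ J))
    (y1 : ∃ i, y i = 1) (ξ1 : ∀ b, ∃ a, ξ (b, a) ≠ 0) (F : IntermediateField k K)
    (hF : F = adjoin k (Set.range y)) (hK : adjoin F (Set.range ξ) = ⊤)
    (hc : ∀ z : K, IsAlgebraic F z → z ∈ F) (hn : Algebra.trdeg F K = n) (n0 : 0 < n)
    (U : Fin q → MvPolynomial (Fin g ⊕ Fin R × Fin N) k)
    (hU : ∀ j, aeval (Sum.elim y ξ) (U j) ≠ 0) (d : Fin q → Fin R → ℕ)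
    (hd : ∀ j, Algebra.IsAlgebraic
      (adjoin F {z | ∃ b a a', d j b ≠ 0 ∧ z = ξ (b, a) / ξ (b, a')}) K)
    (he : ∃ j, Algebra.IsAlgebraic
      (adjoin k {z | ∃ b a a', d j b ≠ 0 ∧ z = ξ (b, a) / ξ (b, a')}) K)
    (hh : ∀ j, aeval (Sum.elim y ξ) (U j) ∈ bm F ξ (d j))
    (hP : Gen F ξ (fun j => aeval (Sum.elim y ξ) (U j)) d)
    (h1 : 2 * n ≤ q) (h2 : 3 ≤ q) :
    ∃ (Θ : MvPolynomial (Fin g ⊕ Fin R × Fin N) k) (c : Fin q → ℕ),
      aeval (Sum.elim y ξ) Θ ≠ 0 ∧ ∀ S : Finset (FinitePlace k), ∃ C : ℝ,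
        ∀ (x : Fin g → k) (t : Fin R × Fin N → k),
        (∀ P, aeval (Sum.elim y ξ) P = 0 → eval (Sum.elim x t) P = 0) →
        eval (Sum.elim x t) Θ ≠ 0 → (∀ j, eval (Sum.elim x t) (U j) ≠ 0) ∧
        (∀ b, (fun a => t (b, a)) ≠ 0) ∧
        logHeight x + ∑ b, logHeight (fun a => t (b, a)) ≤
          ∑ j, c j * ∑ᶠ v ∈ (S : Set (FinitePlace k))ᶜ, Real.log
            ((∏ b, (⨆ a, v (t (b, a))) ^ d j b) / v (eval (Sum.elim x t) (U j))) + C := by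
  subst hF
  have D : Fc.Dat J y := ⟨hJ, hA, y1, hy, hc⟩
  obtain ⟨T, _, _, κ, D0, hκ, hS⟩ := hilb ξ1 hn
  obtain ⟨v, h, hv⟩ := Fc.sp_top (k := k) hK
  have ξ2 := ξ1
  choose m hm using ξ2
  obtain ⟨o, ho⟩ := y1
  obtain ⟨j₁, he⟩ := he
  obtain ⟨C₀, hC₀⟩ := Main5_hc y h hm (d j₁) he
  obtain ⟨Y, a, M, Z, G, G', g3, g2, g4, g5, g7, g8⟩ := Am5.num5 κ hκ hS
    (fun _ _ h => inc_le (Inc.of_le ξ1 h)) (fun j => Am3.big ξ1 hn n0 hκ hS (d j) (hd j)) h1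
    (by omega) (2 * C₀) j₁
  have : Infinite (adjoin k (Set.range y)) := Infinite.of_injective _ (algebraMap k _).injective
  obtain ⟨A, hA'⟩ : ∃ A : ℕ, A = (2 * ∑ b, Y b + 2) * C₀ := ⟨_, rfl⟩
  have hN := nev5 ξ1 hh hU hP g3 g2 g4 (2 * A)
  obtain ⟨W, w1, h3⟩ := D.core h (fun j => Function.ne_iff.2 ⟨finFunctionFinEquiv m, by
    simp only [pw, Equiv.symm_apply_apply]
    exact mul_ne_zero (hU j) (Finset.prod_ne_zero_iff.2 fun b _ => pow_ne_zero _ (hm b))⟩) 0 hN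
    (ε := 1) one_pos
  have w2 : ∀ P, ∀ᶠ z in Fc.gen k (Sum.elim y ξ), v z (aeval (Sum.elim y ξ) P) = eval z P :=
    fun P => by
      filter_upwards [hv, h.aeval (Sum.elim y ξ) P] with z z1 z2
      have e1 : (fun s => v z (Sum.elim y ξ s)) = z := funext (Sum.forall.2 z1)
      rw [z2, e1]
  have w3 : ∀ μ : Mn N Y, ∀ᶠ z in Fc.gen k (Sum.elim y ξ),
      v z (mn ξ μ) = mn (fun s => z (.inr s)) μ := fun μ => by
    simpa [mn] using w2 (mn (fun s => X (.inr s)) μ)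
  have w4 : ∀ j l, ∀ᶠ z in Fc.gen k (Sum.elim y ξ),
      v z (pw ξ (aeval (Sum.elim y ξ) (U j)) (fun b => Y b - d j b) l) =
        pw (fun s => z (.inr s)) (eval z (U j)) (fun b => Y b - d j b) l := fun j l => by
    simpa [pw] using w2 (pw (fun s => X (.inr s)) (U j) (fun b => Y b - d j b) l)
  have w5 : ∀ P, aeval (Sum.elim y ξ) P ≠ 0 → ∀ᶠ z in Fc.gen k (Sum.elim y ξ), eval z P ≠ 0 :=
    fun P hP => ⟨P, hP, fun _ _ h => h⟩
  obtain ⟨Θ, a1, a2⟩ := Filter.inter_mem w1 (hv.and ((Filter.eventually_all.2 w3).and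
    ((Filter.eventually_all.2 fun j => Filter.eventually_all.2 (w4 j)).and
    ((Filter.eventually_all.2 fun j => w5 _ (hU j)).and
    ((w5 (X (.inl o)) (by simp [ho])).and
    ((Filter.eventually_all.2 fun b => w5 (X (.inr (b, m b))) (by simpa using hm b)).and
    hC₀))))))
  refine ⟨Θ, fun j => 2 * A * a j, a1, fun S => ?_⟩
  obtain ⟨C, hC⟩ := h3 S
  refine ⟨C + A * G + A, fun x t p1 p2 => ?_⟩
  obtain ⟨b1, ⟨b2, b2'⟩, b3, b4, b5, b6, b7, b8⟩ := a2 _ p1 p2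
  have hx : x ≠ 0 := Function.ne_iff.2 ⟨o, by simpa using b6⟩
  have ht : ∀ b, (fun a => t (b, a)) ≠ 0 := fun b => Function.ne_iff.2 ⟨m b, by simpa using b7 b⟩
  refine ⟨b5, ht, ?_⟩
  have c1 := hC _ b1
  simp only [b2, b3, b4, Sum.elim_inl, Sum.elim_inr, Pi.zero_apply] at c1
  simp only [b2, b2', Sum.elim_inl, Sum.elim_inr] at b8
  have c2 := fun j => Main_split S hx ht (b5 j) 0 (g3 j)
  have c3 := Main_ht ht Y
  have c4 : ∀ b, (Y b : ℝ) + G * d j₁ b ≤ ∑ j, (a j : ℝ) * d j b + G' := fun b => by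
    exact_mod_cast g8 b
  have c8 : ∑ b, Y b * logHeight (fun a => t (b, a)) ≤
      (∑ b, (Y b : ℝ)) * ∑ b, logHeight fun a => t (b, a) := by
    rw [Finset.mul_sum]
    exact Finset.sum_le_sum fun b _ => mul_le_mul_of_nonneg_right (Finset.single_le_sum
      (f := fun b => (Y b : ℝ)) (fun _ _ => Nat.cast_nonneg _) (Finset.mem_univ b))
      (logHeight_nonneg _)
  have c9 : 0 ≤ ∑ b, d j₁ b * logHeight (fun a => t (b, a)) :=
    Finset.sum_nonneg fun _ _ => mul_nonneg (Nat.cast_nonneg _) (logHeight_nonneg _)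
  have c10 := Finset.sum_congr rfl fun j (_ : j ∈ Finset.univ) => congrArg ((a j : ℝ) * ·) (c2 j)
  have c11 : ∑ b, Y b * logHeight (fun a => t (b, a)) +
      G * ∑ b, d j₁ b * logHeight (fun a => t (b, a)) ≤
      ∑ j, (a j : ℝ) * ∑ b, d j b * logHeight (fun a => t (b, a)) +
        G' * ∑ b, logHeight fun a => t (b, a) := by
    simp only [Finset.mul_sum, ← mul_assoc]
    rw [Finset.sum_comm, ← Finset.sum_add_distrib, ← Finset.sum_add_distrib]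
    refine Finset.sum_le_sum fun b _ => ?_
    rw [← Finset.sum_mul, ← add_mul, ← add_mul]
    exact mul_le_mul_of_nonneg_right (c4 b) (logHeight_nonneg _)
  simp only [mul_add, Finset.sum_add_distrib, Nat.cast_zero, zero_mul, mul_zero,
    Finset.sum_const_zero, zero_add] at c10
  conv at c10 => enter [1, 2]; simp only [pow_zero, one_mul]
  have c12 : ∑ s : Rt.Pl S, (Rt.mu s : ℝ) * ∑ j, ((2 * A * a j : ℕ) : ℝ) *
      Real.log ((⨆ i, Rt.av s (x i)) ^ 0 * (⨆ μ : Mn N Y, Rt.av s (mn t μ)) ^ 1 /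
        ⨆ l, Rt.av s (pw t (eval (Sum.elim x t) (U j)) (fun b => Y b - d j b) l)) =
      2 * A * ∑ j, (a j : ℝ) * Tb.iS S (fun w => Real.log ((⨆ i, w (x i)) ^ 0 *
        (⨆ μ : Mn N Y, w (mn t μ)) ^ 1 /
        ⨆ l, w (pw t (eval (Sum.elim x t) (U j)) (fun b => Y b - d j b) l))) := by
    simp only [Tb.iS, Finset.mul_sum]
    rw [Finset.sum_comm]
    refine Finset.sum_congr rfl fun j _ => Finset.sum_congr rfl fun s _ => ?_
    push_cast
    ring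
  have c13 : (∑ s : Rt.Pl S, (Rt.mu s : ℝ) * ∑ j, ((2 * A * a j : ℕ) : ℝ) *
      Real.log ((⨆ i, Rt.av s (x i)) ^ 0 * (⨆ μ : Mn N Y, Rt.av s (mn t μ)) ^ 1 /
        ⨆ l, Rt.av s (pw t (eval (Sum.elim x t) (U j)) (fun b => Y b - d j b) l))) ≤
      ((((2 * A + 1) * 1 : ℕ) : ℝ) + 1) * logHeight (mn (Y := Y) t) + 1 * logHeight x + C := c1
  rw [c12, c3] at c13
  simp only [Nat.cast_mul, Nat.cast_ofNat, mul_assoc (2 * A : ℝ), ← Finset.mul_sum]
  have c14 := logHeight_nonneg x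
  refine Main5_num (by exact_mod_cast hA') (by exact_mod_cast g5) (Nat.cast_nonneg G')
    (Nat.cast_nonneg _) (Finset.sum_nonneg fun _ _ => Nat.cast_nonneg _) (by exact_mod_cast g7) c14
    (Finset.sum_nonneg fun _ _ => logHeight_nonneg _) c9 b8 c8 c11 ?_ c10
  simpa only [mul_one, one_mul, Nat.cast_add, Nat.cast_mul, Nat.cast_ofNat, Nat.cast_one] using c13

end Pool.Agent.Lib.MP_651af7_nt.Am
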