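import Pool.Agent.Lib.MP_651af7_nt.Am3.Jen

/-! The choice of the weights when there are at least `2 n` divisors. -/

namespace Pool.Agent.Lib.MP_651af7_nt.Am5

open Finset Am2 Am3

variable {R q n : ℕ} {T : Type} [Fintype T] {c : T → ℝ} {κ : T → Fin R → ℕ}

theorem mo_opt (hc : ∀ τ, 0 < c τ) (hκ : ∀ τ, ∑ b, κ τ b = n) {d : Fin q → Fin R → ℝ}
    (hd : ∀ j b, 0 ≤ d j b) (hb : ∀ j, 0 < Hh c κ (d j)) (hq : 0 < q) :
    ∃ a : Fin q → ℝ, (∀ j, 0 < a j) ∧ 0 < Hh c κ (fun b => ∑ i, a i * d i b) ∧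
      ∀ j (u : ℝ), u < 1 → (1 - u) ^ n * Hh c κ (fun b => ∑ i, a i * d i b) ^ q ≤
        Hh c κ (fun b => ∑ i, a i * d i b - u * a j * d j b) ^ q := by
  have hp : ∀ a : Fin q → ℝ, (∀ i, 0 ≤ a i) → ∑ i, a i ≠ 0 →
      0 < Hh c κ fun b => ∑ i, a i * d i b := fun a h0 h1 => by
    obtain ⟨j, -, hj⟩ := exists_ne_zero_of_sum_ne_zero h1
    refine lt_of_lt_of_le (b := Hh c κ fun b => a j * d j b) ?_ (Hp_mono hc
      (fun b => mul_nonneg (h0 j) (hd j b)) fun b => single_le_sum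
        (f := fun i => a i * d i b) (fun i _ => mul_nonneg (h0 i) (hd i b)) (mem_univ j))
    rw [Hh_smul c hκ]
    exact mul_pos (pow_pos ((h0 j).lt_of_ne' hj) _) (hb j)
  let f : (Fin q → ℝ) → ℝ := fun a => (∏ i, a i) ^ n / Hh c κ (fun b => ∑ i, a i * d i b) ^ q
  have hs : ∀ a : Fin q → ℝ, (∀ i, 0 < a i) → ∃ a' ∈ stdSimplex ℝ (Fin q), f a' = f a := fun a h => by
    have h0 : 0 < ∑ i, a i := sum_pos (fun i _ => h i) ⟨⟨0, hq⟩, mem_univ _⟩
    refine ⟨fun i => (∑ i, a i)⁻¹ * a i, ⟨fun i => mul_nonneg (inv_nonneg.2 h0.le) (h i).le, by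
      rw [← mul_sum, inv_mul_cancel₀ h0.ne']⟩, ?_⟩
    simp only [f, mul_assoc, ← mul_sum, Hh_smul c hκ, prod_mul_distrib, prod_const, card_univ,
      Fintype.card_fin, mul_pow, ← pow_mul, mul_comm q n]
    exact mul_div_mul_left _ _ (pow_ne_zero _ (inv_ne_zero h0.ne'))
  obtain ⟨o, o1, o2⟩ := hs (fun _ => 1) fun _ => one_pos
  obtain ⟨a, a1, a2⟩ := (isCompact_stdSimplex ℝ (Fin q)).exists_isMaxOn ⟨o, o1⟩ (f := f)
    (ContinuousOn.div (by fun_prop) (((Hh_cont c κ).comp (by fun_prop)).pow q).continuousOn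
      fun a h => (pow_pos (hp a h.1 (h.2 ▸ one_ne_zero)) _).ne')
  have a3 := hp a a1.1 (a1.2 ▸ one_ne_zero)
  rcases n.eq_zero_or_pos with rfl | hn
  · refine ⟨fun _ => 1, fun _ => one_pos, hp _ (fun _ => zero_le_one) (by simpa using hq.ne'),
      fun j u _ => le_of_eq ?_⟩
    have e : ∀ τ b, κ τ b = 0 := fun τ b => sum_eq_zero_iff.1 (hκ τ) b (mem_univ b)
    simp [Hh, e]
  have a4 : ∀ j, 0 < a j := fun j => (a1.1 j).lt_of_ne' fun e => by
    have k1 : f o ≤ f a := a2 o1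
    have k2 : f a = 0 := by
      simp only [f, prod_eq_zero (mem_univ j) e, zero_pow hn.ne', zero_div]
    have k3 := pow_pos (hp (fun _ => 1) (fun _ => zero_le_one) (by simpa using hq.ne')) q
    rw [o2, k2] at k1
    exact k1.not_gt (div_pos (by simp) k3)
  refine ⟨a, a4, a3, fun j u hu => ?_⟩
  have h1 : ∀ i, 0 < Function.update a j ((1 - u) * a j) i := fun i => by
    rcases eq_or_ne i j with rfl | e
    · simpa using mul_pos (sub_pos.2 hu) (a4 i)
    · simpa [e] using a4 i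
  obtain ⟨a', k1, k2⟩ := hs _ h1
  have k3 : f a' ≤ f a := a2 k1
  have e1 : (fun b => ∑ i, Function.update a j ((1 - u) * a j) i * d i b) =
      fun b => ∑ i, a i * d i b - u * a j * d j b := funext fun b => by
    rw [← add_sum_erase _ _ (mem_univ j), ← add_sum_erase _ _ (mem_univ j), Function.update_self,
      sum_congr rfl fun i hi => by rw [Function.update_of_ne (ne_of_mem_erase hi)]]
    ring
  have k4 := hp _ (fun i => (h1 i).le) (sum_pos (fun i _ => h1 i) ⟨j, mem_univ _⟩).ne'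
  have e2 : ∏ i, Function.update a j ((1 - u) * a j) i = (1 - u) * ∏ i, a i := by
    rw [prod_update_of_mem (mem_univ j), mul_assoc, ← mul_prod_erase _ _ (mem_univ j), sdiff_singleton_eq_erase]
  rw [k2] at k3
  simp only [f] at k3
  rw [e1] at k3 k4
  rw [e2, div_le_div_iff₀ (pow_pos k4 _) (pow_pos a3 _), mul_pow, mul_right_comm,
    mul_comm ((∏ i, a i) ^ n)] at k3
  exact le_of_mul_le_mul_right k3 (pow_pos (prod_pos fun i _ => a4 i) _)

theorem mo_root {H P u : ℝ} (hq : 0 < q) (hH : 0 ≤ H) (hP : 0 ≤ P) (h1 : u < 1)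
    (h : (1 - u) ^ n * H ^ q ≤ P ^ q) : H - P ≤ n / q * H * (u / (1 - u)) := by
  obtain ⟨v, hv⟩ : ∃ v, v = u / (1 - u) := ⟨_, rfl⟩
  have h2 := sub_pos.2 h1
  have q0 : (0 : ℝ) < q := by exact_mod_cast hq
  have h3 : Real.exp (-v) ≤ 1 - u := by
    have := Real.add_one_le_exp v
    rw [hv, div_add_one h2.ne', add_sub_cancel, div_le_iff₀ h2, ← hv] at this
    rwa [Real.exp_neg, inv_le_iff_one_le_mul₀' (Real.exp_pos _)]
  have h4 : (Real.exp (-(n / q * v)) * H) ^ q ≤ P ^ q := by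
    rw [mul_pow, ← Real.exp_nat_mul, show (q : ℝ) * -(n / q * v) = n * -v by field_simp,
      Real.exp_nat_mul]
    exact (mul_le_mul_of_nonneg_right (pow_le_pow_left₀ (Real.exp_pos _).le h3 _)
      (pow_nonneg hH _)).trans h
  have h5 := (mul_le_mul_of_nonneg_right (Real.one_sub_le_exp_neg (n / q * v)) hH).trans
    (le_of_pow_le_pow_left₀ hq.ne' hP h4)
  rw [← hv]
  linarith

theorem mo_one {Q : ℝ → ℝ} (hQ : ConvexOn ℝ (Set.Ici 0) Q) {A : ℝ}
    (h : ∀ u, 0 < u → u < 1 → Q 1 - Q (1 - u) ≤ A * (u / (1 - u)))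
    (h0 : 0 < 2 * Q 1 - 4 * A + 3 * (Q 1 - 2 * Q (3 / 4) + Q (1 / 2))) :
    ∀ᶠ r : ℕ in Filter.atTop, 2 * Q 1 < Q (1 - 1 / (2 * r)) - r * (Q 1 - Q (1 - 1 / (2 * r))) / 2 +
      3 * Q (1 - (r + 1) / (2 * r)) - 9 * r * (Q (1 - r / (2 * r)) - Q (1 - (r + 1) / (2 * r))) / 2 := by
  filter_upwards [Filter.eventually_ge_atTop 3, (tendsto_natCast_atTop_atTop (R := ℝ)
    |>.atTop_mul_const h0).eventually_gt_atTop (8 * |A|)] with r r3 hr
  have r0 : (3 : ℝ) ≤ r := by exact_mod_cast r3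
  obtain ⟨u, hu⟩ : ∃ u : ℝ, u = 1 / (2 * r) := ⟨_, rfl⟩
  have u0 : 0 < u := by rw [hu]; positivity
  have u1 : 2 * r * u = 1 := by rw [hu]; field_simp
  have u2 : u < 1 / 4 := by nlinarith
  rw [show (r + 1 : ℝ) / (2 * r) = 1 / 2 + u by rw [hu]; field_simp,
    show (r : ℝ) / (2 * r) = 1 / 2 by field_simp, ← hu, show (1 : ℝ) - 1 / 2 = 1 / 2 by norm_num,
    show 1 - (1 / 2 + u) = 1 / 2 - u by ring]
  have k1 := h u u0 (by linarith)
  have k2 := (hQ.slope_mono_adjacent (x := 1 / 2 - u) (y := 1 / 2) (z := 1 - u)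
    (by simp; linarith) (by simp; linarith) (by linarith) (by linarith)).trans
    (hQ.slope_mono_adjacent (x := 1 / 2) (y := 1 - u) (z := 1) (by simp) (by simp) (by linarith)
      (by linarith))
  have k3 := hQ.secant_mono_aux3 (x := 3 / 4) (y := 1 - u) (z := 1) (by norm_num) (by simp)
    (by linarith) (by linarith)
  rw [sub_sub_cancel, sub_sub_cancel, div_le_div_iff_of_pos_right u0] at k2
  rw [sub_sub_cancel, le_div_iff₀ u0] at k3
  have k4 : u / (1 - u) = 1 / (2 * r - 1) := by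
    rw [div_eq_div_iff (by linarith) (by linarith)]
    linarith
  rw [k4, mul_one_div, le_div_iff₀ (by linarith)] at k1
  have k5 : 2 * (Q 1 - Q (3 / 4)) ≤ r * (Q 1 - Q (1 - u)) := by
    have := mul_le_mul_of_nonneg_left k3 (Nat.cast_nonneg r)
    linear_combination this - 2 * (Q 1 - Q (3 / 4)) * u1
  have k6 := mul_le_mul_of_nonneg_left k2 (Nat.cast_nonneg r)
  have k7 : 8 * (Q 1 - Q (1 - u)) < 2 * Q 1 - 4 * A + 3 * (Q 1 - 2 * Q (3 / 4) + Q (1 / 2)) := by
    refine lt_of_not_ge fun h => ?_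
    have k8 := mul_le_mul_of_nonneg_left h (Nat.cast_nonneg r)
    have k9 := mul_nonneg (show 0 ≤ Q 1 - Q (1 - u) by linarith) (show (0 : ℝ) ≤ r - 1 by linarith)
    linarith [le_abs_self A]
  linarith

theorem mo_real (hc : ∀ τ, 0 < c τ) (hκ : ∀ τ, ∑ b, κ τ b = n) {d : Fin q → Fin R → ℝ}
    (hd : ∀ j b, 0 ≤ d j b) (hb : ∀ j, 0 < Hh c κ (d j)) (h1 : 2 * n ≤ q) (h2 : n + 2 ≤ q) :
    ∃ (r : ℕ) (θ : Fin q → ℝ), 0 < r ∧ (∀ j, 0 < θ j) ∧ ∀ (P : Fin q → ℝ → ℝ),
      (∀ j s, P j s = Hh c κ fun b => ∑ i, 2 * r * θ i * d i b - s * θ j * d j b) → ∀ j,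
      2 * P j 0 < P j 1 - r * (P j 0 - P j 1) / 2 + 3 * P j (r + 1) -
        9 * r * (P j r - P j (r + 1)) / 2 := by
  obtain ⟨a, a1, a2, a3⟩ := mo_opt hc hκ hd hb (by omega)
  have h3 : ∀ j b, a j * d j b ≤ ∑ i, a i * d i b := fun j b => single_le_sum
    (f := fun i => a i * d i b) (fun i _ => mul_nonneg (a1 i).le (hd i b)) (mem_univ j)
  choose p p1 p2 p3 p4 using fun j => jen_poly hc hκ (w := fun b => ∑ i, a i * d i b - a j * d j b)
    (d := fun b => a j * d j b) (fun b => mul_nonneg (a1 j).le (hd j b)) fun b => sub_nonneg.2 (h3 j b)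
  have e1 : ∀ j u, (p j).eval (1 - u) = Hh c κ fun b => ∑ i, a i * d i b - u * a j * d j b :=
    fun j u => (p1 j _).trans (congrArg _ (funext fun b => by
      simp only [Pi.add_apply, Pi.smul_apply, smul_eq_mul]
      ring))
  have e2 : ∀ j, (p j).eval 1 = Hh c κ fun b => ∑ i, a i * d i b := fun j => by simpa using e1 j 0
  have e3 := fun j => funext (Polynomial.eval_eq_sum_range' (p2 j))
  have q0 : (0 : ℝ) < q := by exact_mod_cast (by omega : 0 < q)
  obtain ⟨r, r1, r2⟩ := ((Filter.eventually_all.2 fun j => mo_one (Q := fun s => (p j).eval s)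
    (A := n / q * (p j).eval 1) (by
      rw [e3]
      refine ⟨convex_Ici 0, fun x hx y hy s t hs ht e => ?_⟩
      simp only [smul_eq_mul, mul_sum, ← sum_add_distrib, mul_left_comm _ ((p j).coeff _), ← mul_add]
      exact sum_le_sum fun i _ => mul_le_mul_of_nonneg_left ((convexOn_pow i).2 hx hy hs ht e)
        (p3 j i)) (fun u u0 u1 => by
      rw [e1, e2]
      refine mo_root (by omega) a2.le (Hp_nonneg hc fun b => ?_) u1 (a3 j u u1)
      nlinarith [h3 j b, mul_nonneg (a1 j).le (hd j b)]) (by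
      have k0 : (1 / 2 : ℝ) • (1 : ℝ) + (1 / 2 : ℝ) • (1 / 2 : ℝ) = 3 / 4 := by norm_num
      have k1 : ∀ i ∈ range (n + 1), 0 ≤ (p j).coeff i * (1 ^ i - 2 * (3 / 4) ^ i + (1 / 2) ^ i) :=
        fun i _ => mul_nonneg (p3 j i) (by
          have := (convexOn_pow (𝕜 := ℝ) i).2 (x := 1) (y := 1 / 2) (by simp) (by simp)
            one_half_pos.le one_half_pos.le (add_halves 1)
          rw [k0] at this
          simp only [smul_eq_mul] at this
          linarith)
      have k2 : (p j).eval 1 - 2 * (p j).eval (3 / 4) + (p j).eval (1 / 2) = ∑ i ∈ range (n + 1),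
          (p j).coeff i * (1 ^ i - 2 * (3 / 4) ^ i + (1 / 2) ^ i) := by
        simp only [Polynomial.eval_eq_sum_range' (p2 j), mul_sum, ← sum_sub_distrib,
          ← sum_add_distrib]
        exact sum_congr rfl fun i _ => by ring
      have k3 := (e2 j).symm ▸ a2
      rw [k2]
      rcases lt_or_ge n 2 with h | h
      · have k4 : (n / q : ℝ) < 1 / 2 := by
          rw [div_lt_div_iff₀ q0 two_pos]
          exact_mod_cast (by omega : n * 2 < 1 * q)
        nlinarith [sum_nonneg k1]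
      · have k4 : (n / q : ℝ) ≤ 1 / 2 := by
          rw [div_le_div_iff₀ q0 two_pos]
          exact_mod_cast (by omega : n * 2 ≤ 1 * q)
        have k5 := (strictConvexOn_pow h).2 (x := 1) (y := 1 / 2) (by simp) (by simp) (by norm_num)
          one_half_pos one_half_pos (add_halves 1)
        rw [k0] at k5
        simp only [smul_eq_mul] at k5
        have k6 : 0 < (p j).coeff n := by
          rw [p4, Hh_smul c hκ]
          exact mul_pos (pow_pos (a1 j) _) (hb j)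
        have k7 := (mul_pos k6 (show 0 < (1 : ℝ) ^ n - 2 * (3 / 4) ^ n + (1 / 2) ^ n by
          linarith)).trans_le (single_le_sum k1 (self_mem_range_succ n))
        nlinarith)).and (Filter.eventually_gt_atTop 0)).exists
  have r0 : (0 : ℝ) < r := by exact_mod_cast r2
  refine ⟨r, fun j => a j / (2 * r), r2, fun j => div_pos (a1 j) (by positivity), fun P hP j => ?_⟩
  have e4 : ∀ s, P j s = (p j).eval (1 - s / (2 * r)) := fun s => by
    rw [hP, e1]
    refine congrArg _ (funext fun b => ?_)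
    rw [sum_congr rfl fun i _ => by rw [mul_div_cancel₀ _ (by positivity)]]
    ring
  simpa only [e4, zero_div, sub_zero] using r1 j

end Pool.Agent.Lib.MP_651af7_nt.Am5
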